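import Pool.Agent.Work.MP_88992e_co.Fin6
import Pool.Agent.Work.MP_88992e_co.Sharp

/-!
# The largest average connectivity, few large degrees

`d : Fin n → ℕ` is the degree sequence, `m` the number of edges, `cnt d k` the number of entries
that are at least `k`, `tl d k = ∑ i, (d i - k + 1) - #{i | d i = 1}` (truncated subtractions) and
`heavy d t = (t + 1) * tl d (t + 1) - t * tl d (t + 2)`, the total of the effective degrees above
`t` (if no entry is one, the sum of the entries that are larger than `t`).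
-/

namespace Pool.Agent.Results.MP_88992e_co.FewLargeDegrees

open Finset Pool.Agent.AvgConn

theorem result :
    (∀ (n m t r : ℕ) (d : Fin n → ℕ), 3 ≤ r → r ≤ t →
      (∃ G : SimpleGraph (Fin n), ∀ v, deg G v = d v) → ∑ v, d v = 2 * m →
      heavy d t + (tl d (r + 1) - tl d (r + 2)) ≤ cnt d 3 →
      cnt d 1 + 12 * t ^ 2 + (4 * r - 11) * heavy d t ≤ m →
      IsGreatest {x : ℝ | ∃ G : SimpleGraph (Fin n), (∀ v, deg G v = d v) ∧ avgConn G = x}
        ((((cnt d 1).choose 2 + (cnt d 2).choose 2 +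
          ∑ k ∈ Icc 3 n, (tl d k - tl d (k + 1)).choose 2 : ℕ) : ℝ) / (n.choose 2 : ℝ))) ∧
    ∀ h q : ℕ, 4 ≤ h → 1 ≤ q → ∃ d : Fin (h * (q + 1)) → ℕ,
      (∃ G : SimpleGraph (Fin (h * (q + 1))), ∀ v, deg G v = d v) ∧
      #{v | d v = h - 1 + 3 * q} = h ∧ #{v | d v = 3} = h * q ∧
      ∀ G : SimpleGraph (Fin (h * (q + 1))), (∀ v, deg G v = d v) →
        avgConn G < (((cnt d 1).choose 2 + (cnt d 2).choose 2 +
          ∑ k ∈ Icc 3 (h * (q + 1)), (tl d k - tl d (k + 1)).choose 2 : ℕ) : ℝ) /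
            ((h * (q + 1)).choose 2 : ℝ) := by
  refine ⟨fun n m t r d h1 h2 h3 h4 h5 h6 => hub_value n m t r h1 h2 d h3 h4 h5 h6, ?_⟩
  intro h q hh hq
  obtain ⟨d, h1, h2, h3, h4⟩ := sharp h q hh hq
  refine ⟨d, h1, ?_, ?_, h4⟩
  · convert h2
  · convert h3

end Pool.Agent.Results.MP_88992e_co.FewLargeDegrees
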