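import Pool.Agent.Work.MP_88992e_co.Fin1

/-!
# The largest average connectivity, sequences of effective degree at most three

`d : Fin n → ℕ` is the degree sequence, `m` the number of edges, `cnt d k` the number of entries
that are at least `k`. The class `∑ (d i - 3) ≤ #{i | d i = 1}` (truncated subtraction) contains
all sequences with maximum degree at most three and all sequences with `m ≤ cnt d 1`.
-/

namespace Pool.Agent.Results.MP_88992e_co.SparseSequences

open Finset Pool.Agent.AvgConn

theorem result (n m : ℕ) (d : Fin n → ℕ)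
    (hreal : ∃ G : SimpleGraph (Fin n), ∀ v, deg G v = d v)
    (hm : ∑ v, d v = 2 * m) (hd : ∑ v, (d v - 3) ≤ #{v | d v = 1}) :
    IsGreatest {x : ℝ | ∃ G : SimpleGraph (Fin n), (∀ v, deg G v = d v) ∧ avgConn G = x}
      (((if cnt d 1 ≤ m then
          (cnt d 1).choose 2 + (cnt d 2).choose 2 + (2 * (m - cnt d 1)).choose 2
        else
          cnt d 1 - m + max ((2 * m - cnt d 1 + 2).choose 2 - 1)
            ((2 * m - cnt d 1).choose 2 + (cnt d 2).choose 2) : ℕ) : ℝ) / (n.choose 2 : ℝ)) := by
  by_cases h : cnt d 1 ≤ m
  · rw [if_pos h]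
    refine sparse_ge d hreal ?_ m hm h
    convert hd
  · rw [if_neg h]
    exact sparse_lt d m hm (by omega)

end Pool.Agent.Results.MP_88992e_co.SparseSequences
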